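import Pool.Agent.H14.DV.Stmt

/-!
# Integral points on blowups of abelian varieties outside of strict transforms

`B` is a product of abelian varieties over a number field `K`, `X` a closed subset of `ℙ × B`, `D` and
`W` closed subschemes such that the images in `B` of `X ∩ D` and of `X ∩ W` have codimension at least
one and at least two. We assume that a hypersurface `G = 0` of `B`, where `G` has positive degree in
the coordinates of each factor, has an inverse image in `X` which is contained in `D ∪ W`. We bound
the number of the integral points of `U = X ∖ D` over a finitely generated group `Γ` of points of `B`.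

Example: `X` is the blowup of `B` along a smooth subvariety of codimension two of a smooth ample
divisor, `D` is the strict transform of this divisor and `W` is the exceptional divisor. Then
`K_X + D` is the inverse image of the ample divisor, so `U = X ∖ D` is of log general type, but it is
the union of `B ∖ D` and of a part of the exceptional divisor: an integral point of `U` may reduce to
a point of the ample divisor, if it reduces to the center of the blowup as well.
-/

set_option autoImplicit false

open MvPolynomial Pool.Agent.TH954.X

namespace Pool.Agent.Results.MP_26d9ad_nt.BlowupsOfAbelianVarieties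

open Pool.Agent.H14.LB.S Pool.Agent.H14.PL.S Pool.Agent.H14.DV Pool.Agent.H14.DV.S

/-- Let `B = ∏ A b` be a product of abelian varieties over the number field `K`, `X` a closed subset
of `ℙ × B`, `D` and `W` closed subschemes whose intersections with `X` have images of codimension at
least one and two in `B`, and `G` a form on `B` of positive degree in the coordinates of each factor
such that all points of `X` over the hypersurface `G = 0` are in `D` or in `W`. There is `η > 0` such
that for all `m ≥ 0`, `C₁` and `s` there are constants `C`, `c` and `κ` with the following property
for each number field `L` containing `K`, with an embedding `φ` into the algebraic closure of `K`,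
each set `S` of at most `s` places of `L`, each finitely generated subgroup `Γ` of `B(L)` and each
`T ≥ 1`. Let `M = c ^ (1 + rank Γ) (1 + log T)`. Let `E` be the set of the points `P` of `Γ` with
`C < h(P) ≤ T` over which there is a point `x` of `X(L)` outside of `D` with
`N_S(D, x) ≤ m h_W(x) + η h(P) + C₁`; for the `S`-integral points of `X ∖ D` the counting function
`N_S(D, x)`, the sum of the local heights over the places outside of `S`, is bounded.

(1) There is a form `H` over `L`, of multidegree at most `M` and not identically zero on `B`, which
vanishes at all points of `E`; and there is a set `Z` of at most `M ^ κ` points of `Γ` such that each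
point `P` of `E` satisfies `h(P - z) ≤ C` for some `z` in `Z`, or there is a point `u` of `B` of
infinite order, over the algebraic closure, such that `H` vanishes at `P + m u` for all integers `m`.

(2) If the multiples of every point of infinite order of `B`, over the algebraic closure, are dense
in `B`, then the number of the points `P` of `Γ` of height at most `T` over which there is such a
point `x` is at most `(M ^ κ + 1) N`, where `N` is the number of the points of `Γ` of height at most
`C`.

The heights are divided by the degrees of the number fields. Moreover, products of elliptic curves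
are examples. -/
theorem result :
    (∀ (K : Type) [Field K] [NumberField K] (n β : ℕ) (A : Fin β → AbV K n), DimensionLe A →
      ∀ X D W : Eqs K n β, ImageCodim A X D 1 → ImageCodim A X W 2 →
      ∀ (G : MvPolynomial (Fin β × Fin n) K) (σ : Fin β → ℕ), MH σ G → (∀ b, 1 ≤ σ b) →
      (∀ (F : Type) [Field F] [Algebra K F] (t : Fin n → F) (P : Pts A F), t ≠ 0 →
        On X t P → ev G (crds P) = 0 → On D t P ∨ On W t P) →
      ∃ η : ℝ, 0 < η ∧ ∀ (m C₁ : ℝ), 0 ≤ m → ∀ s : ℕ, ∃ (C c : ℝ) (κ : ℕ),
        ∀ (L : Type) [Field L] [NumberField L] [Algebra K L] (φ : L →ₐ[K] AlgebraicClosure K)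
          (S : Pls L), S.card ≤ s → ∀ Γ : AddSubgroup (Pts A L), Γ.FG → ∀ T M : ℝ, 1 ≤ T →
          M = c ^ (1 + Module.finrank ℤ Γ) * (1 + Real.log T) →
          FewOutsideCosets φ Γ C M κ (IntegralSet X D W m η C₁ S Γ C T) ∧
          (Simple A → ({P | P ∈ Γ ∧ height P ≤ T ∧ Integral X D W m η C₁ S P}.ncard : ℝ) ≤
            (M ^ κ + 1) * {P | P ∈ Γ ∧ height P ≤ C}.ncard)) ∧
    ∀ (K : Type) [Field K] [NumberField K] (n : ℕ), 3 ≤ n → ∀ (β : ℕ) (a b : Fin β → K),
      (∀ i, 4 * a i ^ 3 + 27 * b i ^ 2 ≠ 0) →
      ∃ A : Fin β → AbV K n, DimensionLe A ∧ ∀ i, IsWeierstrass (A i) (a i) (b i) :=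
  ⟨fun K _ _ n β A hA X D W hD hW G σ hσ hσ1 hG =>
    intS K n β A hA X D W hD hW G σ hσ hσ1 hG,
    fun K _ _ n hn β a b hd => exS K n hn β a b hd⟩

end Pool.Agent.Results.MP_26d9ad_nt.BlowupsOfAbelianVarieties
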