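import Pool.Agent.H9.LV.One

/-!
# MP_26d9ad_nt: integral points on covers of tori are not dense if their directions split

Let `V ⊂ G_m ^ r × A ^ m` be an irreducible variety over the algebraic numbers which dominates the
torus `G_m ^ r`, for instance a finite ramified cover of the torus, or any variety of log general
type with `r` independent units, `r` its dimension. For a number field `k` and a finitely generated
group `Γ` of numbers of `k` (for instance the `S`-units) consider the points `(a, b)` of `V` with
`a ∈ Γ ^ r` and `b ∈ E ^ m` for a number field `E`; all `S`-integral points are of this kind.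

Every sequence of points has limit directions `θ_v ∈ ℝ ^ r`, one for each place `v`, namely the limits
of the vectors `(-log |a_i|_v)_i` divided by the height. The direction `θ_v` defines a monomial
valuation of the function field of the torus; it splits if it has several extensions to the function
field of `V` (after a pull back of `V` by `z ↦ z ^ N`).

**Theorem.** If for all limit directions some `θ_v` splits then the points are not Zariski dense in
`V`. More precisely, this holds for the points whose directions lie in any closed cone, if it is true
for all the elements `θ ≠ 0` of the cone whose coordinates are in the span of the logarithms of `Γ`.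

In particular (product formula), if the directions that do not split lie in an open half space
`∑ l_i θ_i > 0` and the origin, then the points are not Zariski dense, for all number fields and all
groups, in every dimension `r`.

For points which are close to one point at infinity at one place and for covers which are given
there by power series (so that all directions of the cone split) this is the method of Corvaja
and Zannier; here arbitrary covers, directions and several places at once are allowed, and no
condition on the components at infinity and their intersections is needed.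
-/

set_option autoImplicit false

namespace Pool.Agent.Results.MP_26d9ad_nt.SplittingDirections

open Pool.Agent.H9.LV
open Pool.Agent.W180.OP (Pl av)

/-- the point `(a, b)` of `G_m ^ r × A ^ m` -/
noncomputable def point {k E : Type} [Field k] [Algebra k Qb] [Field E] [Algebra E Qb] {r m : ℕ}
    (a : Fin r → kˣ) (b : Fin m → E) : Fin r ⊕ Fin m → Qb :=
  Sum.elim (fun i => algebraMap k Qb (a i : k)) fun j => algebraMap E Qb (b j)

/-- The points `(a, b)` of the variety `V` of the prime ideal `I` with `a i ∈ Γ`, `b j ∈ E` and
`(-log |a i|_v)` in the cone `CC` are not Zariski dense in `V`: some polynomial which does not vanish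
on `V` vanishes at all of them. -/
def NotDense {r m : ℕ} (I : Ideal (MvPolynomial (Fin r ⊕ Fin m) Qb)) {k : Type} [Field k]
    [NumberField k] [Algebra k Qb] (E : Type) [Field E] [Algebra E Qb] (Γ : Subgroup kˣ)
    (CC : Set (Pl k → Fin r → ℝ)) : Prop :=
  ∃ G, G ∉ I ∧ ∀ (a : Fin r → kˣ) (b : Fin m → E), (∀ i, a i ∈ Γ) →
    (fun v i => - Real.log (av v (a i : k))) ∈ CC →
    (∀ p ∈ I, MvPolynomial.eval (point a b) p = 0) → MvPolynomial.eval (point a b) G = 0

/-- **Main theorem.** Let `I` be the prime ideal of an irreducible variety `V ⊂ G_m ^ r × A ^ m` over
the algebraic numbers which dominates `G_m ^ r`.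

(1) Let `k`, `E` be number fields, `Γ` a finitely generated group of numbers of `k` and `CC` a closed
cone of families `(θ_v)` of vectors. If for all `θ ≠ 0` of the cone with coordinates in the span of the
logarithms of `Γ` some `θ_v` splits in `V`, then the points of `V` with directions in the cone are not
Zariski dense.

(2) If for some `l ∈ ℝ ^ r` all directions `θ ≠ 0` with `∑ l_i θ_i ≤ 0` split, then for all number
fields `k`, `E` and all `Γ` the points of `V` with `a ∈ Γ ^ r` and `b ∈ E ^ m` are not Zariski
dense. -/
theorem result {r m : ℕ} (hr : 0 < r) (I : Ideal (MvPolynomial (Fin r ⊕ Fin m) Qb))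
    (hI : I.IsPrime)
    (hdom : ∀ p : MvPolynomial (Fin r) Qb, MvPolynomial.rename Sum.inl p ∈ I → p = 0) :
    (∀ (k E : Type) [Field k] [NumberField k] [Algebra k Qb] [Field E] [NumberField E]
      [Algebra E Qb] (Γ : Subgroup kˣ), Γ.FG → ∀ CC : Set (Pl k → Fin r → ℝ), IsClosed CC →
      (∀ c : ℝ, 0 < c → ∀ x ∈ CC, c • x ∈ CC) →
      (∀ θ ∈ CC, θ ≠ 0 → (∀ i, (fun v => θ v i) ∈ logSpan Γ) → ∃ v, Splits I (θ v)) →
      NotDense I E Γ CC) ∧
    ((∃ l : Fin r → ℝ, ∀ θ : Fin r → ℝ, θ ≠ 0 → ∑ i, l i * θ i ≤ 0 → Splits I θ) →
      ∀ (k E : Type) [Field k] [NumberField k] [Algebra k Qb] [Field E] [NumberField E]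
        [Algebra E Qb] (Γ : Subgroup kˣ), Γ.FG → NotDense I E Γ Set.univ) := by
  refine ⟨fun k E _ _ _ _ _ _ Γ hΓ CC hCC hcone h =>
    general hr I hI hdom Γ hΓ CC hCC hcone h, ?_⟩
  rintro ⟨l, hl⟩ k E _ _ _ _ _ _ Γ hΓ
  refine general hr I hI hdom Γ hΓ Set.univ isClosed_univ (fun _ _ _ _ => Set.mem_univ _)
    fun θ _ h0 hs => ?_
  obtain ⟨v, hv0, hv⟩ := exists_dir Γ hΓ θ h0 hs l
  exact ⟨v, hl _ hv0 hv⟩

end Pool.Agent.Results.MP_26d9ad_nt.SplittingDirections
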