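import Pool.Agent.H9.TG.Ex

/-!
# MP_26d9ad_nt: integral points on the complement of `n + 1` hypersurfaces in `P ^ n`

Let `D_0, …, D_n` be hypersurfaces of arbitrary degrees in the projective space `P ^ n`, given by
forms `f_0, …, f_n` without a common zero, `D_0` irreducible. If `S` is a finite set of places of a
number field `k` and the class number of the ring `O` of `S`-integers is `1` (enlarge `S`), then the
`S`-integral points of the complement of the `D_i` are the points `(x_0 : … : x_n)` with
`f_i(x) ∈ O^*` for all `i`. The complement is a (ramified) cover of the torus `G_m ^ n`; it has only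
`n` independent units, one less than the methods based on the subspace theorem need, and Vojta's
conjecture is not known in this case, except in special cases, even for `n = 2`.

For nonempty subsets `S` of `{1, …, n}` let `D_S ⊆ D_0` be the intersection of the `D_j`, `j ∉ S`. It
has the dimension `|S| - 1`.

**Theorem.** Suppose that for all `S` one of the following is true.
* `D_S` has two components (points, if `|S| = 1`), or
* a monomial in the `f_i`, `i ∈ S`, which is not a `q`-th power, `q` a prime number, is the `q`-th
  power of a form on `D_S`, or
* `S = {i}` and `f_i` is not a `p`-th power, `p` a prime divisor of its degree.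

Then the integral points on the complement of `D_0 ∪ … ∪ D_n` are not Zariski dense, for all number
fields and all `S`. More precisely, for all number fields `k` and `E` and all finitely generated
subgroups `Γ` of `k^*` some form vanishes at all `x ∈ E ^ (n+1)` with `f_i(x) ∈ Γ` for all `i`.

The second condition holds for all `S` which contain `1` if the restriction of `f_1` to `D_0` is the
`q`-th power of a form, i.e. if `D_1` is tangent to `D_0` at all their points of intersection, of order
divisible by `q`, in this sense. So the theorem applies in the following cases.

(a) `P ^ 2` without three curves which have no point in common, `D_1` tangent to `D_0` in the above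
sense, `D_2` an arbitrary curve (of degree at least `2` and not a multiple of another curve, or
`D_0 ∩ D_1` has at least two points). For example a line, a conic which is tangent to it, and any
other conic (`Pool.Agent.H9.TG.line_conic` is the case of a line, a tangent conic and a curve of any
degree); or a line, a quartic curve with this line as a bitangent, and another line.

(b) `P ^ n` without a hyperplane `D_0`, a hypersurface `D_1` tangent to it along a reducible
subvariety `E + E'` of `D_0`, and `n - 1` arbitrary hypersurfaces in general position.

(c) `D_i` is tangent to `D_0 ∩ … ∩ D_(i-1)` for `i = 1, …, n`.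

**Proof.** The hypersurface `f_0 = 1` is a finite cover of `A ^ n` by `(f_1, …, f_n)`. We show that a
direction `θ ∈ ℝ ^ n` with a negative coordinate (there is one if `∑ θ_i ≤ 0`, `θ ≠ 0`) splits in this
cover and apply `SplittingDirections` (2). If `-θ_i / d_i` is maximal for `i ∈ S`, then the center of an
extension of the monomial valuation lies in `D_S`. If a monomial in the `f_i`, `i ∈ S`, is a `q`-th
power on `D_S`, then it is close to the `q`-th power of a function, and the valuation splits in
the Kummer extension. If `D_S` has two components, then the extensions with different centers are
different; this is proved with the norms of forms. A point of `D_S`, `|S| = 1`, satisfies the second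
condition if `f_i` is as in the third condition.
-/

set_option autoImplicit false

namespace Pool.Agent.Results.MP_26d9ad_nt.TangentHypersurfaces

open MvPolynomial
open Pool.Agent.H9.LV (Qb)
open Pool.Agent.H9.TG

/-- **Main theorem.** Let `f 0, …, f n` be forms in `n + 1` variables over the algebraic numbers, of
positive degrees and without common zeros in the projective space, `f 0` irreducible, such that for all
nonempty sets `S` of indices `i ≠ 0` one of `TwoParts`, `PowerOn` and `OneForm` holds. Let `k` and `E` be
number fields and `Γ` a finitely generated subgroup of `k^*`. There is a form `H ≠ 0` which vanishes at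
all `x ∈ E ^ (n+1)` such that `f i (x) ∈ Γ` for all `i`. -/
theorem result {n : ℕ} (hn : 0 < n) (f : Fin (n + 1) → MvPolynomial (Fin (n + 1)) Qb)
    (d : Fin (n + 1) → ℕ) (hf : ∀ i, (f i).IsHomogeneous (d i)) (hd : ∀ i, 0 < d i)
    (hne : ∀ i, f i ≠ 0) (h0 : ∀ t : Fin (n + 1) → Qb, (∀ i, eval t (f i) = 0) → t = 0)
    (hirr : Irreducible (f 0))
    (hS : ∀ S : Finset (Fin (n + 1)), 0 ∉ S → S.Nonempty →
      TwoParts f S ∨ PowerOn f d S ∨ OneForm f d S)
    (k E : Type) [Field k] [NumberField k] [Algebra k Qb] [Field E] [NumberField E]
    [Algebra E Qb] (Γ : Subgroup kˣ) (hΓ : Γ.FG) :
    ∃ (D : ℕ) (H : MvPolynomial (Fin (n + 1)) Qb), H ≠ 0 ∧ H.IsHomogeneous D ∧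
      ∀ (x : Fin (n + 1) → E) (c : Fin (n + 1) → kˣ), (∀ i, c i ∈ Γ) →
        (∀ i, eval (fun j => algebraMap E Qb (x j)) (f i) = algebraMap k Qb (c i : k)) →
        eval (fun j => algebraMap E Qb (x j)) H = 0 :=
  projective hn f d hf hd hne h0 hirr hS Γ hΓ

end Pool.Agent.Results.MP_26d9ad_nt.TangentHypersurfaces
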