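import Pool.Agent.H9.TG.Plane

/-!
# MP_26d9ad_nt: integral points on the complement of three plane curves

Let `D_0`, `D_1`, `D_2` be curves in the projective plane over the algebraic numbers, given by forms
`f_0`, `f_1`, `f_2` of arbitrary degrees without a common zero, `D_0` irreducible, and let `U` be the
complement of `D_0 ∪ D_1 ∪ D_2`. If `S` is a finite set of places of a number field `k` and the class
number of the ring `O` of `S`-integers is `1` (enlarge `S`), then the `S`-integral points of `U` are the
points `(x_0 : x_1 : x_2)` with `f_i(x) ∈ O^*` for all `i`. Vojta's conjecture for the complement of
three curves is open over number fields.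

**Theorem.** Suppose that
* a monomial in `f_1` and `f_2` is not a `q`-th power, `q` a prime number, but its restriction to `D_0`
  is the `q`-th power of a form, for example `D_1` is tangent to `D_0` at all their points of
  intersection, and
* for `{i, j} = {1, 2}` the curves `D_0` and `D_j` have two points in common, or `f_i` is not a `p`-th
  power, `p` a prime divisor of its degree.

Then for every number field and all `S` all but finitely many `S`-integral points of `U` lie on the
closures of finitely many curves in `U` which are images of nonconstant morphisms `G_m → U`.

If all subvarieties of `U` are of log general type, then there are no such morphisms, and `U` has only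
finitely many integral points, as predicted by Q1 of the problem. The theorem applies for example to a
line `D_0`, a conic `D_1` which is tangent to it, and an arbitrary conic or curve of higher degree `D_2`
(not a power) which does not contain the point of contact, or to a cubic `D_1` with an inflectional
tangent line `D_0` and another such curve `D_2`.

**Proof.** By `TangentHypersurfaces` the integral points are not Zariski dense; this uses the subspace
theorem. We lift them to the affine surface `f_0 = 1`. If the exceptional set is infinite, consider the
germs of the coordinates of its points along an ultrafilter. The germs of the values of `f_1` and `f_2`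
satisfy an algebraic relation and so a monomial relation, by the theorem on unit equations, and are
monomials in the germ `z` of a unit. The other coordinates are algebraic functions of `z`, integral over
the Laurent polynomials. If one of them is not a rational function of a root of `z`, then we see from
its Puiseux expansion at infinity that the direction at infinity splits in a Kummer extension of the
curve, and by the subspace theorem again (`SplittingDirections`) there are only finitely many integral
points on the curve, a contradiction. So the coordinates are Laurent polynomials in a root of `z`.
-/

set_option autoImplicit false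

namespace Pool.Agent.Results.MP_26d9ad_nt.TangentPlaneCurves

open MvPolynomial
open Pool.Agent.H9.LV (Qb)
open Pool.Agent.H9.TG

/-- **Main theorem.** Let `f 0`, `f 1`, `f 2` be forms in three variables over the algebraic numbers, of
positive degrees and without common zeros in the projective plane, `f 0` irreducible, such that for all
nonempty sets `S` of indices `i ≠ 0` one of `TwoParts`, `PowerOn` and `OneForm` holds. Let `k` and `E` be
number fields and `Γ` a finitely generated subgroup of `k^*`. There is a finite set of nonconstant
morphisms from `G_m` to the complement of the curves `f i = 0`, such that all but finitely many points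
of the projective plane over `E` which have homogeneous coordinates `x` with `f i (x) ∈ Γ` for all `i`
lie on the closures of the images of these morphisms. -/
theorem result (f : Fin 3 → MvPolynomial (Fin 3) Qb)
    (d : Fin 3 → ℕ) (hf : ∀ i, (f i).IsHomogeneous (d i)) (hd : ∀ i, 0 < d i)
    (hne : ∀ i, f i ≠ 0) (h0 : ∀ t : Fin 3 → Qb, (∀ i, eval t (f i) = 0) → t = 0)
    (hirr : Irreducible (f 0))
    (hS : ∀ S : Finset (Fin 3), 0 ∉ S → S.Nonempty →
      TwoParts f S ∨ PowerOn f d S ∨ OneForm f d S)
    (k E : Type) [Field k] [NumberField k] [Algebra k Qb] [Field E] [NumberField E]
    [Algebra E Qb] (Γ : Subgroup kˣ) (hΓ : Γ.FG) :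
    ∃ 𝓗 : Set (Fin 3 → LaurentPolynomial Qb), 𝓗.Finite ∧ (∀ h ∈ 𝓗, IsGmCurve f h) ∧
      {P : Projectivization E (Fin 3 → E) | ∃ (x : Fin 3 → E) (hx : x ≠ 0),
        P = Projectivization.mk E x hx ∧
        (∀ i, ∃ a ∈ Γ, eval (fun j => algebraMap E Qb (x j)) (f i) = algebraMap k Qb (a : k)) ∧
        ∀ h ∈ 𝓗, ¬ InClosure h fun j => algebraMap E Qb (x j)}.Finite :=
  plane_curves f d hf hd hne h0 hirr hS Γ hΓ

end Pool.Agent.Results.MP_26d9ad_nt.TangentPlaneCurves
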